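import Pool.Agent.HF.Stmts

/-!
# Module ORD of squad HF

A semiring of complexities: polynomials with natural coefficients in variables indexed by the
ordinals, ordered by the largest monomial at which they differ.
-/

namespace Pool.Agent.HF.H11

open Finsupp

/-- Monomials in variables indexed by the ordinals, ordered by the largest variable at which they
differ. -/
abbrev Mo : Type 1 := Colex (Ordinal.{0} →₀ ℕ)

/-- Polynomials with natural coefficients. -/
def Po : Type 1 := AddMonoidAlgebra ℕ Mo

noncomputable section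

instance : CommSemiring Po := inferInstanceAs (CommSemiring (AddMonoidAlgebra ℕ Mo))

/-- The coefficients. -/
def co (x : Po) : Mo →₀ ℕ := AddMonoidAlgebra.coeff (show AddMonoidAlgebra ℕ Mo from x)

theorem co_inj : Function.Injective co := by
  intro x y h
  exact AddMonoidAlgebra.coeff_injective h

theorem co_add (x y : Po) : co (x + y) = co x + co y := by
  exact AddMonoidAlgebra.coeff_add _ _

theorem co_zero : co 0 = 0 := rfl

theorem co_mul (x y : Po) (m : Mo) : co (x * y) m =
    (co x).sum fun a r => (co y).sum fun b s => if a + b = m then r * s else 0 := by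
  exact AddMonoidAlgebra.coeff_mul _ _ _

/-- The monomials. -/
def sg (m : Mo) : Po := AddMonoidAlgebra.single m 1

theorem co_sg (m : Mo) : co (sg m) = Finsupp.single m 1 := rfl

theorem sg_zero : sg 0 = 1 := rfl

instance : LinearOrder Po :=
  LinearOrder.lift' (fun x => toColex (co x)) fun x y h => co_inj (by simpa using h)

theorem le_def (x y : Po) : x ≤ y ↔ toColex (co x) ≤ toColex (co y) := Iff.rfl

theorem lt_def (x y : Po) : x < y ↔ toColex (co x) < toColex (co y) := Iff.rfl

theorem lt_iff (x y : Po) : x < y ↔ ∃ m, (∀ n, m < n → co x n = co y n) ∧ co x m < co y m := by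
  rw [lt_def, Finsupp.Colex.lt_iff]
  rfl

instance : IsOrderedCancelAddMonoid Po where
  add_le_add_left x y h z := by
    rw [le_def] at h ⊢
    rw [co_add, co_add]
    exact add_le_add_left h (toColex (co z))
  le_of_add_le_add_left x y z h := by
    rw [le_def] at h ⊢
    rw [co_add, co_add] at h
    exact le_of_add_le_add_left (show toColex (co x) + toColex (co y) ≤
      toColex (co x) + toColex (co z) from h)

theorem nonneg (x : Po) : 0 ≤ x := by
  rw [← not_lt, lt_iff]
  rintro ⟨m, -, h⟩
  exact absurd h (by rw [co_zero]; simp)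

theorem pos_iff (x : Po) : 0 < x ↔ co x ≠ 0 := by
  constructor
  · intro h h0
    rw [← co_zero] at h0
    exact absurd (co_inj h0) (ne_of_gt h)
  · intro h
    refine lt_of_le_of_ne (nonneg x) fun h0 => h ?_
    rw [← h0]
    rfl

/-- The coefficient of a product as a sum over given finite sets. -/
theorem co_mul' (x y : Po) (m : Mo) (B : Finset Mo) (hB : (co y).support ⊆ B) :
    co (x * y) m = ∑ a ∈ (co x).support, ∑ b ∈ B, if a + b = m then co x a * co y b else 0 := by
  rw [co_mul, Finsupp.sum]
  refine Finset.sum_congr rfl fun a _ => ?_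
  rw [Finsupp.sum_of_support_subset _ hB]
  intro b _
  simp

theorem mul_lt (z x y : Po) (hz : 0 < z) (h : x < y) : z * x < z * y := by
  classical
  rw [pos_iff] at hz
  obtain ⟨m, hm, hlt⟩ := (lt_iff x y).1 h
  have hne : (co z).support.Nonempty := Finsupp.support_nonempty_iff.2 hz
  set n := (co z).support.max' hne with hn
  have hnz : co z n ≠ 0 := by
    have := Finset.max'_mem _ hne
    exact Finsupp.mem_support_iff.1 this
  have hle : ∀ a ∈ (co z).support, a ≤ n := fun a ha => Finset.le_max' _ a ha
  set B := (co x).support ∪ (co y).support with hB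
  have hmB : m ∈ B := by
    refine Finset.mem_union_right _ (Finsupp.mem_support_iff.2 ?_)
    omega
  rw [lt_iff]
  refine ⟨n + m, ?_, ?_⟩
  · intro k hk
    rw [co_mul' z x k B Finset.subset_union_left, co_mul' z y k B Finset.subset_union_right]
    refine Finset.sum_congr rfl fun a ha => Finset.sum_congr rfl fun b _ => ?_
    split_ifs with hab
    · have : m < b := by
        by_contra hc
        have h1 : a + b ≤ n + m := add_le_add (hle a ha) (not_lt.1 hc)
        rw [hab] at h1
        exact absurd h1 (not_le.2 hk)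
      rw [hm b this]
    · rfl
  · rw [co_mul' z x _ B Finset.subset_union_left, co_mul' z y _ B Finset.subset_union_right]
    have key : ∀ a ∈ (co z).support, ∀ b ∈ B,
        (if a + b = n + m then co z a * co x b else 0) ≤
          if a + b = n + m then co z a * co y b else 0 := by
      intro a ha b _
      split_ifs with hab
      · have hmb : m ≤ b := by
          by_contra hc
          have h1 : a + b < n + m := add_lt_add_of_le_of_lt (hle a ha) (not_le.1 hc)
          rw [hab] at h1
          exact lt_irrefl _ h1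
        rcases hmb.lt_or_eq with h2 | h2
        · rw [hm b h2]
        · rw [← h2]
          exact Nat.mul_le_mul_left _ hlt.le
      · exact le_rfl
    refine Finset.sum_lt_sum (fun a ha => Finset.sum_le_sum fun b hb => key a ha b hb)
      ⟨n, Finset.max'_mem _ hne, Finset.sum_lt_sum
        (fun b hb => key n (Finset.max'_mem _ hne) b hb) ⟨m, hmB, ?_⟩⟩
    rw [if_pos rfl, if_pos rfl]
    exact Nat.mul_lt_mul_of_pos_left hlt (Nat.pos_of_ne_zero hnz)

instance : IsStrictOrderedRing Po where
  zero_le_one := nonneg 1
  exists_pair_ne := ⟨0, 1, fun h => by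
    have := congrArg (fun x => co x 0) h
    rw [← sg_zero] at this
    simp [co_zero, co_sg] at this⟩
  mul_lt_mul_of_pos_left z hz x y h := mul_lt z x y hz h
  mul_lt_mul_of_pos_right z hz x y h := by
    have := mul_lt z x y hz h
    simpa [mul_comm] using this

theorem wf : WellFounded ((· < ·) : Po → Po → Prop) :=
  InvImage.wf (fun x : Po => toColex (co x)) (wellFounded_lt)

/-! ## Variables -/

/-- The monomial of a variable. -/
def mv (i : Ordinal.{0}) : Mo := toColex (Finsupp.single i 1)

theorem lt_mv (m : Mo) (g : Ordinal.{0}) : m < mv g ↔ ∀ i, ofColex m i ≠ 0 → i < g := by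
  have hm : m = toColex (ofColex m) := rfl
  rw [hm, mv, Finsupp.Colex.lt_iff]
  change (∃ i, (∀ j, i < j → ofColex m j = Finsupp.single g 1 j) ∧
    ofColex m i < Finsupp.single g 1 i) ↔ ∀ i, ofColex m i ≠ 0 → i < g
  constructor
  · rintro ⟨i, h1, h2⟩ j hj
    have hig : i = g := by
      by_contra hc
      rw [Finsupp.single_apply, if_neg (fun h => hc h.symm)] at h2
      exact absurd h2 (Nat.not_lt_zero _)
    subst hig
    by_contra hc
    rcases (not_lt.1 hc).lt_or_eq with h3 | h3
    · have := h1 j h3
      rw [Finsupp.single_apply, if_neg h3.ne] at this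
      exact hj this
    · rw [Finsupp.single_apply, if_pos rfl] at h2
      exact hj (by rw [← h3]; omega)
  · intro h
    refine ⟨g, fun j hj => ?_, ?_⟩
    · rw [Finsupp.single_apply, if_neg hj.ne]
      by_contra hc
      exact absurd (h j hc) (not_lt.2 hj.le)
    · rw [Finsupp.single_apply, if_pos rfl]
      have : ofColex m g = 0 := by
        by_contra hc
        exact lt_irrefl _ (h g hc)
      omega

/-- The variable. -/
def X (i : Ordinal.{0}) : Po := sg (mv i)

/-- All variables that occur have an index smaller than `g`. -/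
def Bd (g : Ordinal.{0}) (x : Po) : Prop := ∀ m, co x m ≠ 0 → ∀ i, ofColex m i ≠ 0 → i < g

theorem lt_X (x : Po) (g : Ordinal.{0}) : x < X g ↔ Bd g x := by
  rw [lt_iff, X, co_sg]
  constructor
  · rintro ⟨m, h1, h2⟩ n hn
    have hmg : mv g = m := by
      by_contra hc
      rw [Finsupp.single_apply, if_neg hc] at h2
      exact absurd h2 (Nat.not_lt_zero _)
    subst hmg
    refine (lt_mv n g).1 ?_
    by_contra hc
    rcases (not_lt.1 hc).lt_or_eq with h3 | h3
    · have := h1 n h3
      rw [Finsupp.single_apply, if_neg h3.ne] at this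
      exact hn this
    · rw [Finsupp.single_apply, if_pos rfl] at h2
      exact hn (by rw [← h3]; omega)
  · intro h
    refine ⟨mv g, fun n hn => ?_, ?_⟩
    · rw [Finsupp.single_apply, if_neg hn.ne]
      by_contra hc
      exact absurd ((lt_mv n g).2 (h n hc)) (not_lt.2 hn.le)
    · rw [Finsupp.single_apply, if_pos rfl]
      have : co x (mv g) = 0 := by
        by_contra hc
        exact lt_irrefl _ ((lt_mv _ g).2 (h _ hc))
      omega

theorem Bd.add {g : Ordinal.{0}} {x y : Po} (hx : Bd g x) (hy : Bd g y) : Bd g (x + y) := by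
  intro m hm i hi
  rw [co_add, Finsupp.add_apply] at hm
  by_cases h : co x m = 0
  · exact hy m (by omega) i hi
  · exact hx m h i hi

theorem Bd.mul {g : Ordinal.{0}} {x y : Po} (hx : Bd g x) (hy : Bd g y) : Bd g (x * y) := by
  classical
  intro m hm i hi
  rw [co_mul' x y m _ subset_rfl] at hm
  obtain ⟨a, ha, h1⟩ := Finset.exists_ne_zero_of_sum_ne_zero hm
  obtain ⟨b, hb, h2⟩ := Finset.exists_ne_zero_of_sum_ne_zero h1
  have hab : a + b = m := by
    by_contra hc
    rw [if_neg hc] at h2
    exact h2 rfl
  rw [← hab] at hi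
  have h3 : ofColex a i + ofColex b i ≠ 0 := hi
  by_cases h : ofColex a i = 0
  · exact hy b (Finsupp.mem_support_iff.1 hb) i (by omega)
  · exact hx a (Finsupp.mem_support_iff.1 ha) i h

theorem Bd.one (g : Ordinal.{0}) : Bd g 1 := by
  intro m hm i hi
  rw [← sg_zero, co_sg, Finsupp.single_apply] at hm
  have h0 : (0 : Mo) = m := by
    by_contra hc
    rw [if_neg hc] at hm
    exact hm rfl
  subst h0
  exact absurd rfl hi

theorem exists_Bd (x : Po) : ∃ g, Bd g x := by
  classical
  refine ⟨((co x).support.biUnion fun m => (ofColex m).support).sup Order.succ,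
    fun m hm i hi => ?_⟩
  refine lt_of_lt_of_le (Order.lt_succ i) (Finset.le_sup (f := Order.succ) ?_)
  rw [Finset.mem_biUnion]
  exact ⟨m, Finsupp.mem_support_iff.2 hm, Finsupp.mem_support_iff.2 hi⟩

theorem X_strict : StrictMono X := by
  intro a b h
  rw [lt_X]
  intro m hm i hi
  rw [X, co_sg, Finsupp.single_apply] at hm
  have h0 : mv a = m := by
    by_contra hc
    rw [if_neg hc] at hm
    exact hm rfl
  subst h0
  have h1 : a = i := by
    by_contra hc
    exact hi (by
      change Finsupp.single a 1 i = 0
      rw [Finsupp.single_apply, if_neg hc])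
  rw [← h1]
  exact h

/-! ## Smallness of the initial segments -/

/-- Lists of lists of indices give polynomials. -/
def FF (g : Ordinal.{0}) : FreeAddMonoid (FreeAddMonoid (Set.Iio g)) →+ Po :=
  FreeAddMonoid.lift fun w => sg (toColex (FreeAddMonoid.lift (fun i : Set.Iio g =>
    Finsupp.single i.1 1) w))

theorem mem_range (g : Ordinal.{0}) (x : Po) (hx : Bd g x) : x ∈ AddMonoidHom.mrange (FF g) := by
  classical
  have hmon : ∀ m : Ordinal.{0} →₀ ℕ, (∀ i, m i ≠ 0 → i < g) →
      m ∈ AddMonoidHom.mrange (FreeAddMonoid.lift (fun i : Set.Iio g =>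
        Finsupp.single i.1 1) : FreeAddMonoid (Set.Iio g) →+ (Ordinal.{0} →₀ ℕ)) := by
    intro m hm
    rw [← Finsupp.sum_single m]
    refine sum_mem fun i hi => ?_
    have hi' := hm i (Finsupp.mem_support_iff.1 hi)
    have : (Finsupp.single i (m i) : Ordinal.{0} →₀ ℕ) = m i • Finsupp.single i 1 := by
      rw [Finsupp.smul_single, smul_eq_mul, mul_one]
    rw [this]
    exact nsmul_mem (AddMonoidHom.mem_mrange.2 ⟨FreeAddMonoid.of ⟨i, hi'⟩, by simp⟩) _
  have hx' : x = ∑ m ∈ (co x).support, (co x m) • sg m := by
    apply co_inj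
    have hco : ∀ (S : Finset Mo), co (∑ m ∈ S, (co x m) • sg m) =
        ∑ m ∈ S, (co x m) • Finsupp.single m 1 := by
      intro S
      induction S using Finset.induction_on with
      | empty => simp [co_zero]
      | insert a S ha ih =>
        rw [Finset.sum_insert ha, Finset.sum_insert ha, co_add, ih]
        congr 1
    rw [hco]
    conv_lhs => rw [← Finsupp.sum_single (co x)]
    refine Finset.sum_congr rfl fun m _ => ?_
    rw [Finsupp.smul_single, smul_eq_mul, mul_one]
  rw [hx']
  refine sum_mem fun m hm => nsmul_mem ?_ _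
  obtain ⟨w, hw⟩ := hmon (ofColex m) (hx m (Finsupp.mem_support_iff.1 hm))
  refine ⟨FreeAddMonoid.of w, ?_⟩
  rw [FF, FreeAddMonoid.lift_eval_of, hw]
  rfl

instance (α : Type 1) [Small.{0} α] : Small.{0} (FreeAddMonoid α) :=
  inferInstanceAs (Small.{0} (List α))

instance (x : Po) : Small.{0} {y : Po // y < x} := by
  obtain ⟨g, hg⟩ := exists_Bd x
  have hx : x < X g := (lt_X x g).2 hg
  have h1 : ∀ y : {y : Po // y < x}, ∃ w, FF g w = y.1 := fun y =>
    mem_range g y.1 ((lt_X _ _).1 (y.2.trans hx))
  choose w hw using h1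
  refine small_of_injective (f := w) fun a b h => Subtype.ext ?_
  rw [← hw a, ← hw b, h]

/-- The order type of the elements below `x`. -/
def ot : Po → Ordinal.{0} :=
  wf.fix fun x ih => ⨆ y : {y : Po // y < x}, Order.succ (ih y.1 y.2)

theorem ot_eq (x : Po) : ot x = ⨆ y : {y : Po // y < x}, Order.succ (ot y.1) := by
  rw [ot, WellFounded.fix_eq]

theorem ot_strict : StrictMono ot := by
  intro y x h
  rw [ot_eq x]
  refine lt_of_lt_of_le (Order.lt_succ _) ?_
  exact le_ciSup (f := fun y : {y : Po // y < x} => Order.succ (ot y.1))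
    Ordinal.bddAbove_of_small ⟨y, h⟩

/-- The semiring of complexities. -/
def cxs : Cxs where
  T := Po
  csr := inferInstance
  lin := inferInstance
  ord := inferInstance
  wf := wf
  nonneg := nonneg
  Om := fun x => X (ot x)
  Om_strict := fun x y h => X_strict (ot_strict h)
  le_Om := fun x => by
    by_contra hc
    have h1 := ot_strict (not_le.1 hc)
    have h2 : ot x ≤ ot (X (ot x)) := (ot_strict.comp X_strict).le_apply
    exact absurd h1 (not_lt.2 h2)
  one_lt_Om := fun c => (lt_X _ _).2 (Bd.one _)
  Om_add := fun a b c ha hb => (lt_X _ _).2 (((lt_X _ _).1 ha).add ((lt_X _ _).1 hb))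
  Om_mul := fun a b c ha hb => (lt_X _ _).2 (((lt_X _ _).1 ha).mul ((lt_X _ _).1 hb))

/-- ORD -/
theorem ord : OrdStmt := ⟨cxs⟩

end

end Pool.Agent.HF.H11
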